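import Pool.Agent.H.MP_dda0b9_al.Final

/-!
# MP_dda0b9_al: for every `t ≥ 1` and every cut `C` of `(D^s, W)`, `s = 3t+1`, no quiver of type
`D_n` has an Auslander algebra which is derived equivalent to `Λ_C`

The definitions are in `Pool/Agent/H/MP_dda0b9_al/DefsCat.lean` (finite-dimensional modules,
bounded derived categories, derived equivalence), `DefsQ.lean` (quivers of type `D_n`, their
representations, Auslander algebras) and `DefsL.lean` (the quiver `D^s`, the potential, cuts,
`Λ_C`).

Proof: a derived equivalence preserves the trace of the Coxeter-type matrix `C^{-T} C`, where `C`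
is the Cartan matrix.  This trace is computed to be `1` for the Auslander algebra of a quiver of
type `D_n` and `3` (if `t ≥ 2`) or `2` (if `t = 1`) for `Λ_C`.
-/

set_option autoImplicit false

namespace Pool.Agent.Results.MP_dda0b9_al.NotDerivedEquivalent

open MPdda

theorem result (t : ℕ) [NeZero t] (C : Set (Arr t)) (hC : IsCut C) (n : ℕ) (hn : 4 ≤ n)
    (o : Fin (n - 1) → Bool) (ι : Type) [Finite ι] (M : ι → DRep n hn o)
    (hM : IsIndecList M) : ¬ DerivedEquivalent (Lam C) (AusAlg M) :=
  MPdda.final t C hC n hn o ι M hM

end Pool.Agent.Results.MP_dda0b9_al.NotDerivedEquivalent
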